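import Mathlib
import Pool.Agent.H786.Main

set_option autoImplicit false
open scoped ContDiff Manifold Topology ENNReal
open Set

namespace Pool.Agent.Results.MP_ae1fc5_gt.GHFar

open Pool.Agent.H858R2 (En ctarget MaximalRicciFlow)
open Pool.Agent.N535 (S3 Met Scal)
open Pool.Agent.H786 (RS roundMet)

/-- Negative answer to Q1: there is `ε > 0` such that for every `δ > 0` there is a smooth metric
`g 0` on `S³` with scalar curvature `≥ 6`, with a maximal Ricci flow `g t`, `0 ≤ t < T`, with
`T > 1/4 - δ`, such that the Gromov-Hausdorff distance (Mathlib's) between `S³` with the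
Riemannian distance of `g 0` and `S³` with the Riemannian distance of the round metric is at
least `ε`. -/
theorem result : ∃ ε : ℝ, 0 < ε ∧ ∀ δ : ℝ, 0 < δ → ∃ (T : EReal) (g : ℝ → Met),
    MaximalRicciFlow T g ∧ ((1 / 4 - δ : ℝ) : EReal) < T ∧
    (∀ e ∈ atlas (En 3) S3, ∀ y ∈ ctarget e, 6 ≤ Scal ((g 0).G e) y) ∧
    ε ≤ GromovHausdorff.ghDist (RS (g 0)) (RS roundMet) :=
  Pool.Agent.H786.mainC

end Pool.Agent.Results.MP_ae1fc5_gt.GHFar
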